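import Mathlib
import Pool.Agent.R863.SixQuad

/-!
# Conics on the hypersurfaces `x₁ᵈ + x₂ᵈ + x₃ᵈ = x₄ᵈ + x₅ᵈ + x₆ᵈ`

Subsets of the projective space `ℙ⁵` are described by their cones of representing vectors in `ℂ⁶`
(with the zero vector).
-/

set_option autoImplicit false

open Polynomial

namespace Pool.Agent.Results.MP_cd75ba_ag.Threshold

/-- the (cone over the) hypersurface `X_d` -/
def hyp (d : ℕ) : Set (Fin 6 → ℂ) :=
  {x | x 0 ^ d + x 1 ^ d + x 2 ^ d - x 3 ^ d - x 4 ^ d - x 5 ^ d = 0}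

/-- `C` is (the cone over) a smooth conic in a plane of `ℙ⁵`: the plane is the image of an injective
linear map `A : ℂ³ → ℂ⁶` and the conic is the image of the zero set of a nondegenerate quadratic
form `Q` on `ℂ³`. -/
def IsConic (C : Set (Fin 6 → ℂ)) : Prop :=
  ∃ (A : (Fin 3 → ℂ) →ₗ[ℂ] (Fin 6 → ℂ)) (Q : QuadraticForm ℂ (Fin 3 → ℂ)),
    Function.Injective A ∧ (QuadraticMap.associated (R := ℂ) Q).SeparatingLeft ∧
      C = {x | ∃ u, Q u = 0 ∧ A u = x}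

/-- some ratio of two coordinates is constant on `C` -/
def Degenerate (C : Set (Fin 6 → ℂ)) : Prop :=
  ∃ i j : Fin 6, i ≠ j ∧ ∃ a b : ℂ, (a ≠ 0 ∨ b ≠ 0) ∧ ∀ x ∈ C, a * x i - b * x j = 0

/-- for `d ≥ 15` every conic in `X_d` is degenerate -/
theorem upper {d : ℕ} (hd : 15 ≤ d) {C : Set (Fin 6 → ℂ)} (hC : IsConic C) (hX : C ⊆ hyp d) :
    Degenerate C := by
  obtain ⟨A, Q, -, hQ, rfl⟩ := hC
  by_contra hnd
  have hfr : Module.finrank ℂ (Fin 3 → ℂ) = 3 := by simp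
  have hQ2 := QuadraticForm.equivalent_weightedSumSquares_of_isAlgClosed Q hQ
  rw [hfr] at hQ2
  obtain ⟨e⟩ := hQ2
  have hmem : ∀ w : Fin 3 → ℂ, w 0 ^ 2 + w 1 ^ 2 + w 2 ^ 2 = 0 →
      A (e.symm w) ∈ {x | ∃ u, Q u = 0 ∧ A u = x} := by
    intro w hw
    refine ⟨e.symm w, ?_, rfl⟩
    rw [QuadraticMap.IsometryEquiv.map_app e.symm w, QuadraticMap.weightedSumSquares_apply]
    simp only [Fin.sum_univ_three, Pi.one_apply, one_smul]
    linear_combination hw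
  -- the linear map in coordinates
  set B : (Fin 3 → ℂ) → (Fin 6 → ℂ) := fun w => A (e.symm w) with hB
  obtain ⟨α, β, γ, hco⟩ : ∃ α β γ : Fin 6 → ℂ, ∀ w i,
      B w i = w 0 * α i + w 1 * β i + w 2 * γ i := by
    refine ⟨B (Pi.single 0 1), B (Pi.single 1 1), B (Pi.single 2 1), fun w i => ?_⟩
    have hw : w = w 0 • (Pi.single 0 1 : Fin 3 → ℂ) + w 1 • (Pi.single 1 1 : Fin 3 → ℂ) +
        w 2 • (Pi.single 2 1 : Fin 3 → ℂ) := by
      ext j
      fin_cases j <;> simp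
    have he : B w = w 0 • B (Pi.single 0 1) + w 1 • B (Pi.single 1 1) +
        w 2 • B (Pi.single 2 1) := by
      conv_lhs => rw [hw]
      simp only [hB]
      have h1 : ∀ x y, e.symm (x + y) = e.symm x + e.symm y := fun x y =>
        map_add e.symm.toLinearEquiv x y
      have h2 : ∀ (c : ℂ) x, e.symm (c • x) = c • e.symm x := fun c x =>
        map_smul e.symm.toLinearEquiv c x
      rw [h1, h1, h2, h2, h2, map_add, map_add, map_smul, map_smul, map_smul]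
    rw [he]
    simp
  have hmemB : ∀ w : Fin 3 → ℂ, w 0 ^ 2 + w 1 ^ 2 + w 2 ^ 2 = 0 → B w ∈ hyp d :=
    fun w hw => hX (hmem w hw)
  -- no two rows are proportional
  have hrow : ∀ i j : Fin 6, i ≠ j → ∀ c : ℂ, ¬ (α i = c * α j ∧ β i = c * β j ∧
      γ i = c * γ j) := by
    rintro i j hij c ⟨h1, h2, h3⟩
    apply hnd
    refine ⟨i, j, hij, 1, c, Or.inl one_ne_zero, ?_⟩
    rintro x ⟨u, -, rfl⟩
    have hu : A u = B (e u) := by
      simp only [hB]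
      congr 1
      exact (e.symm_apply_apply u).symm
    rw [hu, hco, hco, h1, h2, h3]
    ring
  set a : Fin 6 → ℂ := fun i => α i + Complex.I * γ i with ha
  set b : Fin 6 → ℂ := fun i => 2 * β i with hb
  set c : Fin 6 → ℂ := fun i => -α i + Complex.I * γ i with hc
  have hval : ∀ s t i, B ![s ^ 2 - t ^ 2, 2 * s * t, Complex.I * (s ^ 2 + t ^ 2)] i =
      a i * s ^ 2 + b i * s * t + c i * t ^ 2 := by
    intro s t i
    rw [hco]
    simp only [ha, hb, hc, Matrix.cons_val_zero, Matrix.cons_val_one, Matrix.cons_val]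
    ring
  have habc : ∀ i j : Fin 6, i ≠ j → ∀ z : ℂ, a i = z * a j → b i = z * b j → c i = z * c j →
      False := by
    intro i j hij z h1 h2 h3
    simp only [ha, hb, hc] at h1 h2 h3
    refine hrow i j hij z ⟨?_, ?_, ?_⟩
    · linear_combination (h1 - h3) / 2
    · linear_combination h2 / 2
    · have h4 : Complex.I * (γ i - z * γ j) = 0 := by linear_combination (h1 + h3) / 2
      have h5 := (mul_eq_zero.1 h4).resolve_left Complex.I_ne_zero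
      linear_combination h5
  -- a point where no coordinate vanishes
  obtain ⟨x0, hx0⟩ : ∃ x0 : ℂ, ∀ i, a i * x0 ^ 2 + b i * x0 + c i ≠ 0 := by
    have hne : ∏ i : Fin 6, (C (a i) * X ^ 2 + C (b i) * X + C (c i) : ℂ[X]) ≠ 0 := by
      refine Finset.prod_ne_zero_iff.2 fun i _ h => ?_
      have h0 := congrArg (fun p => coeff p 0) h
      have h1 := congrArg (fun p => coeff p 1) h
      have h2 := congrArg (fun p => coeff p 2) h
      simp [coeff_X, coeff_X_pow, coeff_C] at h0 h1 h2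
      have hij : i ≠ i + 1 := by
        fin_cases i <;> decide
      exact habc i (i + 1) hij 0 (by simpa using h2) (by simpa using h1) (by simpa using h0)
    by_contra hall
    push Not at hall
    apply hne
    apply Polynomial.funext
    intro x
    obtain ⟨i, hi⟩ := hall x
    rw [eval_prod, eval_zero]
    refine Finset.prod_eq_zero (Finset.mem_univ i) ?_
    simp only [eval_add, eval_mul, eval_C, eval_pow, eval_X]
    exact hi
  set p : Fin 6 → ℂ[X] := fun i =>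
    C (a i * x0 ^ 2 + b i * x0 + c i) * X ^ 2 + C (2 * a i * x0 + b i) * X + C (a i) with hp
  have hpdeg : ∀ i, (p i).natDegree = 2 := fun i => natDegree_quadratic (hx0 i)
  have hpprop : ∀ i j, i ≠ j → ∀ z : ℂ, p i ≠ C z * p j := by
    intro i j hij z h
    have h0 := congrArg (fun p => coeff p 0) h
    have h1 := congrArg (fun p => coeff p 1) h
    have h2 := congrArg (fun p => coeff p 2) h
    simp only [hp, coeff_add, coeff_C_mul, coeff_X_pow, coeff_X, coeff_C] at h0 h1 h2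
    norm_num at h0 h1 h2
    refine habc i j hij z h0 ?_ ?_
    · linear_combination h1 - 2 * x0 * h0
    · linear_combination h2 - x0 * h1 + x0 ^ 2 * h0
  have heval : ∀ x i, (p i).eval x =
      B ![(x * x0 + 1) ^ 2 - x ^ 2, 2 * (x * x0 + 1) * x,
        Complex.I * ((x * x0 + 1) ^ 2 + x ^ 2)] i := by
    intro x i
    rw [hval]
    simp only [hp, eval_add, eval_mul, eval_C, eval_pow, eval_X]
    ring
  refine Pool.Agent.R863.SixQuad.six p hpdeg hpprop ![1, 1, 1, -1, -1, -1] ⟨0, by simp⟩ hd ?_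
  apply Polynomial.funext
  intro x
  have h1 := hmemB ![(x * x0 + 1) ^ 2 - x ^ 2, 2 * (x * x0 + 1) * x,
        Complex.I * ((x * x0 + 1) ^ 2 + x ^ 2)] (by
    simp only [Matrix.cons_val_zero, Matrix.cons_val_one, Matrix.cons_val]
    linear_combination ((x * x0 + 1) ^ 2 + x ^ 2) ^ 2 * Complex.I_sq)
  unfold hyp at h1
  rw [Set.mem_ofPred_eq] at h1
  simp only [← heval] at h1
  rw [eval_finsetSum, eval_zero, Fin.sum_univ_six]
  simp only [eval_mul, eval_C, eval_pow]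
  simp only [Matrix.cons_val_zero, Matrix.cons_val_one, Matrix.cons_val]
  linear_combination h1

section example14

lemma expand (v t : ℂ) : (v ^ 2 + v * t - t ^ 2) ^ 14 =
    (t ^ 28 + 910 * v ^ 5 * t ^ 23 - 10010 * (v ^ 5) ^ 2 * t ^ 18 + 6930 * (v ^ 5) ^ 3 * t ^ 13 +
      5005 * (v ^ 5) ^ 4 * t ^ 8 + 182 * (v ^ 5) ^ 5 * t ^ 3) +
    v * (-14 * t ^ 27 - 1365 * v ^ 5 * t ^ 22 + 3640 * (v ^ 5) ^ 2 * t ^ 17 +
      14105 * (v ^ 5) ^ 3 * t ^ 12 + 1430 * (v ^ 5) ^ 4 * t ^ 7 + 77 * (v ^ 5) ^ 5 * t ^ 2) +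
    v ^ 2 * (77 * t ^ 26 - 1430 * v ^ 5 * t ^ 21 + 14105 * (v ^ 5) ^ 2 * t ^ 16 -
      3640 * (v ^ 5) ^ 3 * t ^ 11 - 1365 * (v ^ 5) ^ 4 * t ^ 6 + 14 * (v ^ 5) ^ 5 * t) +
    v ^ 3 * (-182 * t ^ 25 + 5005 * v ^ 5 * t ^ 20 - 6930 * (v ^ 5) ^ 2 * t ^ 15 -
      10010 * (v ^ 5) ^ 3 * t ^ 10 - 910 * (v ^ 5) ^ 4 * t ^ 5 + (v ^ 5) ^ 5) +
    v ^ 4 * (-15625 * (v ^ 5) ^ 2 * t ^ 14) := by
  ring

/-- the fourteenth powers of the forms `z s² + s t - z⁻¹ t²` with `z ^ 5 = 1` -/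
lemma gz (s t : ℂ) : ∃ A B C D : ℂ, ∀ z : ℂ, z ^ 5 = 1 →
    (z * s ^ 2 + s * t - z ^ 4 * t ^ 2) ^ 14 =
      z * A + z ^ 2 * B + z ^ 3 * C + z ^ 4 * D - 15625 * (s * t) ^ 14 := by
  refine ⟨(t ^ 28 + 910 * s ^ 5 * t ^ 23 - 10010 * (s ^ 5) ^ 2 * t ^ 18 +
      6930 * (s ^ 5) ^ 3 * t ^ 13 + 5005 * (s ^ 5) ^ 4 * t ^ 8 + 182 * (s ^ 5) ^ 5 * t ^ 3),
    s * (-14 * t ^ 27 - 1365 * s ^ 5 * t ^ 22 + 3640 * (s ^ 5) ^ 2 * t ^ 17 +
      14105 * (s ^ 5) ^ 3 * t ^ 12 + 1430 * (s ^ 5) ^ 4 * t ^ 7 + 77 * (s ^ 5) ^ 5 * t ^ 2),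
    s ^ 2 * (77 * t ^ 26 - 1430 * s ^ 5 * t ^ 21 + 14105 * (s ^ 5) ^ 2 * t ^ 16 -
      3640 * (s ^ 5) ^ 3 * t ^ 11 - 1365 * (s ^ 5) ^ 4 * t ^ 6 + 14 * (s ^ 5) ^ 5 * t),
    s ^ 3 * (-182 * t ^ 25 + 5005 * s ^ 5 * t ^ 20 - 6930 * (s ^ 5) ^ 2 * t ^ 15 -
      10010 * (s ^ 5) ^ 3 * t ^ 10 - 910 * (s ^ 5) ^ 4 * t ^ 5 + (s ^ 5) ^ 5), ?_⟩
  intro z hz
  have h1 : z * s ^ 2 + s * t - z ^ 4 * t ^ 2 = z ^ 4 * ((z * s) ^ 2 + z * s * t - t ^ 2) := by
    linear_combination (-(z * s ^ 2) - s * t) * hz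
  have h2 : (z ^ 4) ^ 14 = z := by
    have : (z ^ 4) ^ 14 = (z ^ 5) ^ 11 * z := by ring
    rw [this, hz]
    ring
  have h3 : (z * s) ^ 5 = s ^ 5 := by
    rw [mul_pow, hz, one_mul]
  rw [h1, mul_pow, h2, expand, h3]
  have h4 : z * ((z * s) ^ 4 * (-15625 * (s ^ 5) ^ 2 * t ^ 14)) =
      z ^ 5 * (-15625 * (s * t) ^ 14) := by ring
  rw [hz] at h4
  linear_combination h4

lemma power_sums {ζ : ℂ} (h5 : ζ ^ 5 = 1) (h1 : ζ ≠ 1) :
    1 + ζ + ζ ^ 2 + ζ ^ 3 + ζ ^ 4 = 0 := by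
  have : (ζ - 1) * (1 + ζ + ζ ^ 2 + ζ ^ 3 + ζ ^ 4) = 0 := by linear_combination h5
  exact (mul_eq_zero.1 this).resolve_left (sub_ne_zero.2 h1)

/-- an identity of degree 14 between quadratic forms -/
lemma identity14 {ζ : ℂ} (h5 : ζ ^ 5 = 1) (h1 : ζ ≠ 1) (s t : ℂ) :
    (1 * s ^ 2 + s * t - 1 ^ 4 * t ^ 2) ^ 14 + (ζ * s ^ 2 + s * t - ζ ^ 4 * t ^ 2) ^ 14 +
      (ζ ^ 2 * s ^ 2 + s * t - (ζ ^ 2) ^ 4 * t ^ 2) ^ 14 +
      (ζ ^ 3 * s ^ 2 + s * t - (ζ ^ 3) ^ 4 * t ^ 2) ^ 14 +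
      (ζ ^ 4 * s ^ 2 + s * t - (ζ ^ 4) ^ 4 * t ^ 2) ^ 14 + 5 ^ 7 * (s * t) ^ 14 = 0 := by
  obtain ⟨A, B, C, D, h⟩ := gz s t
  have p : ∀ j : ℕ, (ζ ^ j) ^ 5 = 1 := fun j => by rw [← pow_mul, mul_comm, pow_mul, h5, one_pow]
  rw [h 1 (one_pow _), h ζ h5, h _ (p 2), h _ (p 3), h _ (p 4)]
  have hs := power_sums h5 h1
  have e2 : 1 + ζ ^ 2 + (ζ ^ 2) ^ 2 + (ζ ^ 3) ^ 2 + (ζ ^ 4) ^ 2 = 0 := by
    linear_combination hs + (ζ + ζ ^ 3) * h5
  have e3 : 1 + ζ ^ 3 + (ζ ^ 2) ^ 3 + (ζ ^ 3) ^ 3 + (ζ ^ 4) ^ 3 = 0 := by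
    linear_combination hs + (ζ + ζ ^ 4 + ζ ^ 7 + ζ ^ 2) * h5
  have e4 : 1 + ζ ^ 4 + (ζ ^ 2) ^ 4 + (ζ ^ 3) ^ 4 + (ζ ^ 4) ^ 4 = 0 := by
    linear_combination hs + (ζ ^ 3 + ζ ^ 7 + ζ ^ 2 + ζ ^ 11 + ζ ^ 6 + ζ) * h5
  linear_combination A * hs + B * e2 + C * e3 + D * e4

/-- the quadratic form `y² - x z` -/
noncomputable def Q0 : QuadraticForm ℂ (Fin 3 → ℂ) :=
  QuadraticMap.linMulLin (LinearMap.proj 1) (LinearMap.proj 1) -
    QuadraticMap.linMulLin (LinearMap.proj 0) (LinearMap.proj 2)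

lemma Q0_apply (u : Fin 3 → ℂ) : Q0 u = u 1 * u 1 - u 0 * u 2 := by
  simp [Q0]

lemma Q0_nondeg : (QuadraticMap.associated (R := ℂ) Q0).SeparatingLeft := by
  intro u hu
  have h : ∀ v : Fin 3 → ℂ, 2 * u 1 * v 1 - u 0 * v 2 - u 2 * v 0 = 0 := by
    intro v
    have := hu v
    rw [QuadraticMap.associated_apply, Q0_apply, Q0_apply, Q0_apply] at this
    simp only [Pi.add_apply] at this
    have h2 : (⅟2 : Module.End ℂ ℂ) • ((u 1 + v 1) * (u 1 + v 1) - (u 0 + v 0) * (u 2 + v 2) -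
      (u 1 * u 1 - u 0 * u 2) - (v 1 * v 1 - v 0 * v 2)) = 0 := this
    have h3 := congrArg (fun y => (2 : Module.End ℂ ℂ) • y) h2
    rw [smul_smul, mul_invOf_self, one_smul, smul_zero] at h3
    linear_combination h3
  have h0 := h ![1, 0, 0]
  have h1 := h ![0, 1, 0]
  have h2 := h ![0, 0, 1]
  simp at h0 h1 h2
  ext i
  fin_cases i <;> simp [h0, h1, h2]

/-- on `X_14` there is a nondegenerate conic -/
theorem lower : ∃ C, IsConic C ∧ C ⊆ hyp 14 ∧ ¬ Degenerate C := by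
  obtain ⟨ζ, hζ⟩ : ∃ ζ : ℂ, IsPrimitiveRoot ζ 5 := ⟨_, Complex.isPrimitiveRoot_exp 5 (by norm_num)⟩
  obtain ⟨ω, hω⟩ := IsAlgClosed.exists_pow_nat_eq (-1 : ℂ) (n := 14) (by norm_num)
  obtain ⟨r, hr⟩ := IsAlgClosed.exists_pow_nat_eq (5 : ℂ) (n := 2) (by norm_num)
  have h5 : ζ ^ 5 = 1 := hζ.pow_eq_one
  have h1 : ζ ≠ 1 := hζ.ne_one (by norm_num)
  have hω0 : ω ≠ 0 := by
    rintro rfl
    norm_num at hω
  have hr0 : r ≠ 0 := by
    rintro rfl
    norm_num at hr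
  let κ : Fin 6 → ℂ := ![1, 1, 1, ω, ω, ω * r]
  let z : Fin 6 → ℂ := ![1, ζ, ζ ^ 2, ζ ^ 3, ζ ^ 4, 0]
  have hκ : ∀ i, κ i ≠ 0 := by
    intro i
    fin_cases i <;> simp [κ, hω0, hr0]
  have hz : Function.Injective z := by
    have hz5 : ∀ i : Fin 5, z i.castSucc = ζ ^ (i : ℕ) := by
      intro i
      fin_cases i <;> simp [z]
    have hζ0 : ζ ≠ 0 := hζ.ne_zero (by norm_num)
    intro i j
    refine Fin.lastCases ?_ (fun i => ?_) i
    · refine Fin.lastCases (fun _ => rfl) (fun j h => ?_) j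
      exfalso
      rw [hz5] at h
      exact pow_ne_zero _ hζ0 h.symm
    · refine Fin.lastCases (fun h => ?_) (fun j h => ?_) j
      · exfalso
        rw [hz5] at h
        exact pow_ne_zero _ hζ0 h
      · rw [hz5, hz5] at h
        have := hζ.pow_inj i.2 j.2 h
        rw [Fin.ext this]
  let A : (Fin 3 → ℂ) →ₗ[ℂ] (Fin 6 → ℂ) :=
    { toFun := fun u i => κ i * (z i * u 0 + u 1 - z i ^ 4 * u 2)
      map_add' := by
        intro u v
        ext i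
        simp only [Pi.add_apply]
        ring
      map_smul' := by
        intro c u
        ext i
        simp only [Pi.smul_apply, smul_eq_mul, RingHom.id_apply]
        ring }
  have hA : ∀ u i, A u i = κ i * (z i * u 0 + u 1 - z i ^ 4 * u 2) := fun u i => rfl
  refine ⟨{x | ∃ u, Q0 u = 0 ∧ A u = x}, ⟨A, Q0, ?_, Q0_nondeg, rfl⟩, ?_, ?_⟩
  · rw [← LinearMap.ker_eq_bot, LinearMap.ker_eq_bot']
    intro u hu
    have h : ∀ i, z i * u 0 + u 1 - z i ^ 4 * u 2 = 0 := by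
      intro i
      have := congrFun hu i
      rw [hA] at this
      exact (mul_eq_zero.1 this).resolve_left (hκ i)
    have a5 := h 5
    have a0 := h 0
    have a1 := h 1
    simp [z] at a5 a0 a1
    have hne : ζ - ζ ^ 4 ≠ 0 := by
      intro h
      have h3 : ζ ^ 1 = ζ ^ 4 := by linear_combination h
      exact absurd (hζ.pow_inj (by norm_num) (by norm_num) h3) (by norm_num)
    have h0 : u 0 = 0 := by
      have : (ζ - ζ ^ 4) * u 0 = 0 := by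
        linear_combination a1 - a5 - ζ ^ 4 * (a0 - a5)
      exact (mul_eq_zero.1 this).resolve_left hne
    have h2 : u 2 = 0 := by linear_combination -a0 + a5 + h0
    ext i
    fin_cases i
    · exact h0
    · exact a5
    · exact h2
  · rintro x ⟨u, hu, rfl⟩
    rw [Q0_apply] at hu
    obtain ⟨s, t, h0, h2, h3⟩ : ∃ s t : ℂ, u 0 = s ^ 2 ∧ u 1 = s * t ∧ u 2 = t ^ 2 := by
      obtain ⟨s, hs⟩ := IsAlgClosed.exists_pow_nat_eq (u 0) (n := 2) (by norm_num)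
      by_cases hs0 : s = 0
      · obtain ⟨t, ht⟩ := IsAlgClosed.exists_pow_nat_eq (u 2) (n := 2) (by norm_num)
        refine ⟨s, t, hs.symm, ?_, ht.symm⟩
        rw [hs0] at hs ⊢
        rw [← hs] at hu
        have : u 1 * u 1 = 0 := by linear_combination hu
        rw [zero_mul]
        simpa using this
      · refine ⟨s, u 1 / s, hs.symm, by field_simp, ?_⟩
        rw [← hs] at hu
        field_simp
        linear_combination -hu
    have hid := identity14 h5 h1 s t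
    show A u 0 ^ 14 + A u 1 ^ 14 + A u 2 ^ 14 - A u 3 ^ 14 - A u 4 ^ 14 - A u 5 ^ 14 = 0
    simp only [hA, h0, h2, h3]
    simp only [κ, z, Matrix.cons_val_zero, Matrix.cons_val_one, Matrix.cons_val]
    have hr14 : r ^ 14 = 5 ^ 7 := by
      rw [← hr]; ring
    have e3 : (ω * (ζ ^ 3 * s ^ 2 + s * t - (ζ ^ 3) ^ 4 * t ^ 2)) ^ 14 =
        -(ζ ^ 3 * s ^ 2 + s * t - (ζ ^ 3) ^ 4 * t ^ 2) ^ 14 := by
      rw [mul_pow, hω]; ring
    have e4 : (ω * (ζ ^ 4 * s ^ 2 + s * t - (ζ ^ 4) ^ 4 * t ^ 2)) ^ 14 =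
        -(ζ ^ 4 * s ^ 2 + s * t - (ζ ^ 4) ^ 4 * t ^ 2) ^ 14 := by
      rw [mul_pow, hω]; ring
    have e5 : (ω * r * (0 * s ^ 2 + s * t - 0 ^ 4 * t ^ 2)) ^ 14 = -(5 ^ 7 * (s * t) ^ 14) := by
      have : ω * r * (0 * s ^ 2 + s * t - 0 ^ 4 * t ^ 2) = ω * r * (s * t) := by ring
      rw [this, mul_pow, mul_pow, hω, hr14]; ring
    rw [e3, e4, e5]
    linear_combination hid
  · rintro ⟨i, j, hij, a, b, hab, h⟩
    have hpt : ∀ s t : ℂ, a * A ![s ^ 2, s * t, t ^ 2] i - b * A ![s ^ 2, s * t, t ^ 2] j = 0 := by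
      intro s t
      refine h _ ⟨_, ?_, rfl⟩
      rw [Q0_apply]
      simp
      ring
    have e1 := hpt 1 0
    have e2 := hpt 0 1
    have e3 := hpt 1 1
    rw [hA, hA] at e1 e2 e3
    simp at e1 e2 e3
    have f0 : a * κ i = b * κ j := by linear_combination e3 - e1 - e2
    have f1 : (a * κ i) * (z i - z j) = 0 := by linear_combination e1 - z j * f0
    have hne : z i - z j ≠ 0 := sub_ne_zero.2 fun h => hij (hz h)
    have f2 : a * κ i = 0 := (mul_eq_zero.1 f1).resolve_right hne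
    have f3 : a = 0 := (mul_eq_zero.1 f2).resolve_right (hκ i)
    have f4 : b = 0 := by
      rw [f3, zero_mul] at f0
      exact (mul_eq_zero.1 f0.symm).resolve_right (hκ j)
    rcases hab with h | h
    · exact h f3
    · exact h f4

end example14

/-- The least positive integer `d₀` such that for all `d ≥ d₀` every conic contained in `X_d` is
degenerate is `15`. -/
theorem result : IsLeast {n : ℕ | 0 < n ∧ ∀ d, n ≤ d → ∀ C, IsConic C → C ⊆ hyp d →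
    Degenerate C} 15 := by
  constructor
  · exact ⟨by norm_num, fun d hd C hC hX => upper hd hC hX⟩
  · rintro n ⟨-, hn⟩
    by_contra hlt
    obtain ⟨C, hC, hX, hnd⟩ := lower
    exact hnd (hn 14 (by omega) C hC hX)

end Pool.Agent.Results.MP_cd75ba_ag.Threshold
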